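import Pool.Agent.T9h20.TA.Spec

/-!
# Project TA, the piece (E): moments of a normalised factor

Author: helper67.
-/

set_option autoImplicit false

open MeasureTheory Set
open scoped ENNReal NNReal

namespace Pool.Agent.T9h67.TA

open Pool.Agent.T9h20.TA

/-- Jensen for small powers -/
theorem jensen {α : Type} [MeasurableSpace α] (P : Measure α) [IsProbabilityMeasure P]
    {f : α → ℝ≥0∞} (hf : Measurable f) {p : ℝ} (h0 : 0 ≤ p) (h1 : p ≤ 1) :
    ∫⁻ x, f x ^ p ∂P ≤ (∫⁻ x, f x ∂P) ^ p := by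
  rcases h0.eq_or_lt with rfl | h0
  · simp
  rcases h1.eq_or_lt with rfl | h1
  · simp
  have hpq : (1 / p).HolderConjugate (1 / (1 - p)) := by
    rw [Real.holderConjugate_iff]
    constructor
    · rw [lt_div_iff₀ h0]; linarith
    · rw [one_div, one_div, inv_inv, inv_inv]; ring
  have h := ENNReal.lintegral_mul_le_Lp_mul_Lq P hpq (f := fun x => f x ^ p) (g := fun _ => 1)
    (hf.pow_const p).aemeasurable aemeasurable_const
  have e1 : ∀ x, (f x ^ p) ^ (1 / p) = f x := by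
    intro x
    rw [← ENNReal.rpow_mul, mul_one_div_cancel h0.ne', ENNReal.rpow_one]
  simp only [e1, Pi.mul_apply, mul_one, ENNReal.one_rpow, lintegral_const, measure_univ,
    one_div_one_div] at h
  exact h

/-- change one coordinate: `∫ φ(∑ v s g s) ≤ B ∫ φ` -/
theorem dens {t : ℕ} (μ : Fin t → Measure ℝ) [∀ s, IsProbabilityMeasure (μ s)]
    (B : ℝ≥0) (hB : ∀ s, μ s ≤ (B : ℝ≥0∞) • (volume : Measure ℝ)) (g : Fin t → ℝ) (s0 : Fin t)
    (hg : |g s0| = 1) (φ : ℝ → ℝ≥0∞) (hφ : Measurable φ) :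
    ∫⁻ v, φ (∑ s, v s * g s) ∂(Measure.pi μ) ≤ B * ∫⁻ x, φ x := by
  rcases t with _ | n
  · exact s0.elim0
  have hmp := measurePreserving_piFinSuccAbove μ s0
  have hmeas : Measurable fun p : ℝ × (Fin n → ℝ) =>
      φ (p.1 * g s0 + ∑ j, p.2 j * g (s0.succAbove j)) := by
    refine hφ.comp ?_
    fun_prop
  have h1 : ∫⁻ v, φ (∑ s, v s * g s) ∂(Measure.pi μ) =
      ∫⁻ p, φ (p.1 * g s0 + ∑ j, p.2 j * g (s0.succAbove j))
        ∂((μ s0).prod (Measure.pi fun j => μ (s0.succAbove j))) := by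
    rw [← hmp.lintegral_comp hmeas]
    refine lintegral_congr fun v => ?_
    rw [Fin.sum_univ_succAbove _ s0]
    rfl
  rw [h1, lintegral_prod_symm _ hmeas.aemeasurable]
  have h2 : ∀ w : Fin n → ℝ, ∫⁻ x, φ (x * g s0 + ∑ j, w j * g (s0.succAbove j)) ∂(μ s0) ≤
      B * ∫⁻ x, φ x := by
    intro w
    refine (lintegral_mono' (hB s0) le_rfl).trans ?_
    rw [lintegral_smul_measure, smul_eq_mul]
    refine mul_le_mul_right ?_ _
    set c := ∑ j, w j * g (s0.succAbove j)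
    rcases eq_or_eq_neg_of_abs_eq hg with h | h
    · simp only [h, mul_one]
      rw [lintegral_add_right_eq_self (μ := (volume : Measure ℝ)) φ c]
    · simp only [h, mul_neg, mul_one]
      have e1 : ∫⁻ x : ℝ, φ (-x + c) = ∫⁻ x : ℝ, φ (x + c) :=
        lintegral_neg_eq_self (μ := (volume : Measure ℝ)) fun x => φ (x + c)
      rw [e1, lintegral_add_right_eq_self (μ := (volume : Measure ℝ)) φ c]
  calc ∫⁻ w, ∫⁻ x, φ (x * g s0 + ∑ j, w j * g (s0.succAbove j)) ∂(μ s0)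
        ∂(Measure.pi fun j => μ (s0.succAbove j)) ≤
        ∫⁻ _w : Fin n → ℝ, (B * ∫⁻ x, φ x) ∂(Measure.pi fun j => μ (s0.succAbove j)) :=
        lintegral_mono h2
    _ = B * ∫⁻ x, φ x := by
        rw [lintegral_const, measure_univ, mul_one]

/-- `∫ |x|^(-1/2)` over `[-1, 1]` -/
theorem int_sqrt : ∫⁻ x in Icc (-1 : ℝ) 1, ‖x‖ₑ ^ (-(1 / 2) : ℝ) ≤ 4 := by
  have h0 : ∫⁻ x in Ioc (0 : ℝ) 1, ‖x‖ₑ ^ (-(1 / 2) : ℝ) = 2 := by
    have hi : IntervalIntegrable (fun x : ℝ => x ^ (-(1 / 2) : ℝ)) volume 0 1 :=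
      intervalIntegral.intervalIntegrable_rpow' (by norm_num)
    have h1 : ∫ x in (0 : ℝ)..1, x ^ (-(1 / 2) : ℝ) = 2 := by
      rw [integral_rpow (Or.inl (by norm_num))]
      norm_num
    rw [intervalIntegral.integral_of_le zero_le_one] at h1
    have h2 := ofReal_integral_eq_lintegral_ofReal
      ((intervalIntegrable_iff_integrableOn_Ioc_of_le zero_le_one).mp hi)
      (by
        filter_upwards [ae_restrict_mem measurableSet_Ioc] with x hx
        exact Real.rpow_nonneg hx.1.le _)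
    rw [h1] at h2
    have h3 : ∫⁻ x in Ioc (0 : ℝ) 1, ‖x‖ₑ ^ (-(1 / 2) : ℝ) =
        ∫⁻ x in Ioc (0 : ℝ) 1, ENNReal.ofReal (x ^ (-(1 / 2) : ℝ)) := by
      refine setLIntegral_congr_fun measurableSet_Ioc fun x hx => ?_
      rw [← ENNReal.ofReal_rpow_of_pos hx.1, Real.enorm_eq_ofReal hx.1.le]
    rw [h3, ← h2]
    norm_num
  have h1 : ∫⁻ x in Ico (-1 : ℝ) 0, ‖x‖ₑ ^ (-(1 / 2) : ℝ) =
      ∫⁻ x in Ioc (0 : ℝ) 1, ‖x‖ₑ ^ (-(1 / 2) : ℝ) := by
    rw [← lintegral_indicator measurableSet_Ico, ← lintegral_indicator measurableSet_Ioc,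
      ← lintegral_neg_eq_self (μ := (volume : Measure ℝ))]
    refine lintegral_congr fun x => ?_
    by_cases hx : x ∈ Ioc (0 : ℝ) 1
    · rw [indicator_of_mem hx, indicator_of_mem (by constructor <;> linarith [hx.1, hx.2]),
        enorm_neg]
    · rw [indicator_of_notMem hx, indicator_of_notMem]
      intro h
      exact hx ⟨by linarith [h.2], by linarith [h.1]⟩
  have h2 : (Icc (-1 : ℝ) 1) = Ico (-1 : ℝ) 0 ∪ ({0} ∪ Ioc (0 : ℝ) 1) := by
    ext x
    simp only [mem_Icc, mem_union, mem_Ico, mem_singleton_iff, mem_Ioc]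
    constructor
    · intro h
      rcases lt_trichotomy x 0 with h' | h' | h'
      · exact .inl ⟨h.1, h'⟩
      · exact .inr (.inl h')
      · exact .inr (.inr ⟨h', h.2⟩)
    · rintro (h | h | h)
      · constructor <;> linarith [h.1, h.2]
      · rw [h]; norm_num
      · constructor <;> linarith [h.1, h.2]
  rw [h2]
  refine (lintegral_union_le _ _ _).trans ?_
  have h3 : ∫⁻ x in ({0} ∪ Ioc (0 : ℝ) 1), ‖x‖ₑ ^ (-(1 / 2) : ℝ) ≤ 2 := by
    refine (lintegral_union_le _ _ _).trans ?_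
    rw [h0]
    simp
  calc _ ≤ (2 : ℝ≥0∞) + 2 := add_le_add (h1.trans h0).le h3
    _ = 4 := by norm_num

theorem sMom : SMom := by
  intro t μ _ A B hB hA g s0 hg0 hg
  set P : Measure (Fin t → ℝ) := Measure.pi μ with hP
  have hmeas : Measurable fun v : Fin t → ℝ => ∑ s, v s * g s := by fun_prop
  have h1 : ∫⁻ v, ‖∑ s, v s * g s‖ₑ ∂P ≤ t * A := by
    calc ∫⁻ v, ‖∑ s, v s * g s‖ₑ ∂P ≤ ∫⁻ v, ∑ s, ‖v s‖ₑ ∂P := by
          refine lintegral_mono fun v => ?_
          refine (enorm_sum_le _ _).trans (Finset.sum_le_sum fun s _ => ?_)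
          rw [enorm_mul]
          have : ‖g s‖ₑ ≤ 1 := by
            rw [Real.enorm_eq_ofReal_abs]
            exact ENNReal.ofReal_le_one.mpr (hg s)
          exact mul_le_of_le_one_right' this
      _ = ∑ s, ∫⁻ v, ‖v s‖ₑ ∂P := by
          rw [lintegral_finsetSum]
          intro s _
          fun_prop
      _ = ∑ s, ∫⁻ x, ‖x‖ₑ ∂(μ s) := by
          refine Finset.sum_congr rfl fun s _ => ?_
          exact (measurePreserving_eval μ s).lintegral_comp (f := fun x : ℝ => ‖x‖ₑ) (by fun_prop)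
      _ ≤ ∑ _s : Fin t, (A : ℝ≥0∞) := Finset.sum_le_sum fun s _ => hA s
      _ = t * A := by simp
  refine ⟨h1, ?_, ?_⟩
  · intro θ h0 hθ
    refine (jensen P (f := fun v => ‖∑ s, v s * g s‖ₑ) (by fun_prop) h0 hθ).trans ?_
    exact ENNReal.rpow_le_rpow h1 h0
  · intro θ h0 hθ
    have h2 : ∫⁻ v, ‖∑ s, v s * g s‖ₑ ^ (-(1 / 2) : ℝ) ∂P ≤ 1 + 4 * B := by
      set φ : ℝ → ℝ≥0∞ := (Icc (-1 : ℝ) 1).indicator fun x => ‖x‖ₑ ^ (-(1 / 2) : ℝ) with hφ
      have hφm : Measurable φ :=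
        Measurable.indicator (by fun_prop) measurableSet_Icc
      have h3 : ∀ x : ℝ, ‖x‖ₑ ^ (-(1 / 2) : ℝ) ≤ 1 + φ x := by
        intro x
        by_cases hx : x ∈ Icc (-1 : ℝ) 1
        · rw [hφ, indicator_of_mem hx]
          exact le_add_self
        · have h4 : 1 ≤ ‖x‖ₑ := by
            rw [Real.enorm_eq_ofReal_abs, ENNReal.one_le_ofReal]
            by_contra hcon
            push Not at hcon
            exact hx (abs_le.mp hcon.le)
          refine le_trans ?_ le_self_add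
          rw [ENNReal.rpow_neg, ENNReal.inv_le_one]
          exact ENNReal.one_le_rpow h4 (by norm_num)
      calc ∫⁻ v, ‖∑ s, v s * g s‖ₑ ^ (-(1 / 2) : ℝ) ∂P ≤
            ∫⁻ v, (1 + φ (∑ s, v s * g s)) ∂P := lintegral_mono fun v => h3 _
        _ = 1 + ∫⁻ v, φ (∑ s, v s * g s) ∂P := by
            rw [lintegral_add_left measurable_const, lintegral_const, measure_univ, mul_one]
        _ ≤ 1 + B * ∫⁻ x, φ x := by
            gcongr
            exact dens μ B hB g s0 hg0 φ hφm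
        _ ≤ 1 + 4 * B := by
            rw [hφ, lintegral_indicator measurableSet_Icc, mul_comm (4 : ℝ≥0∞)]
            gcongr
            exact int_sqrt
    have e1 : ∀ v : Fin t → ℝ, ‖∑ s, v s * g s‖ₑ ^ (-θ) =
        (‖∑ s, v s * g s‖ₑ ^ (-(1 / 2) : ℝ)) ^ (2 * θ) := by
      intro v
      rw [← ENNReal.rpow_mul]
      congr 1
      ring
    simp only [e1]
    refine (jensen P (f := fun v => ‖∑ s, v s * g s‖ₑ ^ (-(1 / 2) : ℝ)) (by fun_prop)
      (by linarith) (by linarith)).trans ?_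
    exact ENNReal.rpow_le_rpow h2 (by linarith)

end Pool.Agent.T9h67.TA
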