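import Pool.Agent.T9h20.TA.Spec

/-!
# Project TA, the piece (R): the Rice inequality

Author: helper67.
-/

set_option autoImplicit false

open MeasureTheory Set
open scoped ENNReal NNReal

namespace Pool.Agent.T9h67.TA

open Pool.Agent.T9h20.TA

theorem sRice : SArea → SMeas → SCoord → SRice := by
  intro hArea hMeas hCoord β _ _ t μ _ B b s hB K U G R D hK hU hG hR hD hKi hUi hGi hRi hDi hder
  classical
  have hPP : IsProbabilityMeasure (PP μ) := by unfold PP; infer_instance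
  -- the zero set
  set Z : Set ((β → Fin t → ℝ) × ℝ) := {p | p.1 b s * G p.1 p.2 + R p.1 p.2 = 0} with hZ
  have hZc : IsClosed Z := by
    have h1 : Continuous fun p : (β → Fin t → ℝ) × ℝ => p.1 b s * G p.1 p.2 + R p.1 p.2 := by
      have hGc : Continuous fun p : (β → Fin t → ℝ) × ℝ => G p.1 p.2 := hG
      have hRc : Continuous fun p : (β → Fin t → ℝ) × ℝ => R p.1 p.2 := hR
      have h2 : Continuous fun p : (β → Fin t → ℝ) × ℝ => p.1 b s := by fun_prop
      exact (h2.mul hGc).add hRc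
    exact isClosed_singleton.preimage h1
  set Φ : (β → Fin t → ℝ) → ℝ≥0∞ := fun v =>
    (({y : ℝ | (v, y) ∈ K ∧ (v, y) ∈ U ∧ v b s * G v y + R v y = 0}.encard : ℕ∞) : ℝ≥0∞) with hΦ
  have hΦm : Measurable Φ := by
    have h1 := hMeas (β → Fin t → ℝ) (K ∩ Z) U (hK.inter hZc) hU
    have h2 : Φ = fun w : β → Fin t → ℝ =>
        (({y : ℝ | (w, y) ∈ K ∩ Z ∧ (w, y) ∈ U}.encard : ℕ∞) : ℝ≥0∞) := by
      funext v
      rw [hΦ]
      simp only
      congr 2
      ext y
      simp only [mem_ofPred_eq, mem_inter_iff, hZ]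
      tauto
    rw [h2]
    exact h1
  have hKU : MeasurableSet (K ∩ U) := hK.measurableSet.inter hU.measurableSet
  have hI : Measurable ((K ∩ U).indicator fun p => ‖D p.1 p.2‖ₑ) := by
    refine Measurable.indicator ?_ hKU
    exact hD.enorm
  -- one fibre
  have hfib : ∀ v : β → Fin t → ℝ, ∫⁻ x, Φ (upd v b s x) ∂(μ b s) ≤
      B * ∫⁻ y, (K ∩ U).indicator (fun p => ‖D p.1 p.2‖ₑ) (v, y) := by
    intro v
    set S : Set ℝ := {y | (v, y) ∈ K ∩ U} with hS
    have hSm : MeasurableSet S := by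
      have : Measurable fun y : ℝ => (v, y) := by fun_prop
      exact this hKU
    have h1 : ∀ x, Φ (upd v b s x) =
        (({y | y ∈ S ∧ -(R v y) / G v y = x}.encard : ℕ∞) : ℝ≥0∞) := by
      intro x
      rw [hΦ]
      simp only
      congr 2
      ext y
      have hx : upd v b s x b s = x := by simp [upd]
      simp only [mem_ofPred_eq, hKi, hUi, hGi, hRi, hx, hS, mem_inter_iff]
      constructor
      · rintro ⟨h2, h3, h4⟩
        refine ⟨⟨h2, h3⟩, ?_⟩
        have h5 := (hder v y h2 h3).1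
        rw [div_eq_iff h5]
        linarith
      · rintro ⟨⟨h2, h3⟩, h4⟩
        refine ⟨h2, h3, ?_⟩
        have h5 := (hder v y h2 h3).1
        rw [div_eq_iff h5] at h4
        linarith
    calc ∫⁻ x, Φ (upd v b s x) ∂(μ b s) ≤ ∫⁻ x, Φ (upd v b s x) ∂((B : ℝ≥0∞) • volume) :=
          lintegral_mono' hB le_rfl
      _ = B * ∫⁻ x, Φ (upd v b s x) := by rw [lintegral_smul_measure, smul_eq_mul]
      _ ≤ B * ∫⁻ y in S, ‖D v y‖ₑ := by
          refine mul_le_mul_right ?_ _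
          refine (lintegral_congr h1).trans_le ?_
          exact hArea (fun y => -(R v y) / G v y) (D v) S hSm fun y hy =>
            (hder v y hy.1 hy.2).2
      _ = B * ∫⁻ y, (K ∩ U).indicator (fun p => ‖D p.1 p.2‖ₑ) (v, y) := by
          congr 1
          rw [← lintegral_indicator hSm]
          rfl
  calc ∫⁻ v, Φ v ∂(PP μ) = ∫⁻ v, ∫⁻ x, Φ (upd v b s x) ∂(μ b s) ∂(PP μ) :=
        hCoord β t μ Φ hΦm b s
    _ ≤ ∫⁻ v, (B * ∫⁻ y, (K ∩ U).indicator (fun p => ‖D p.1 p.2‖ₑ) (v, y)) ∂(PP μ) :=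
        lintegral_mono hfib
    _ = B * ∫⁻ v, (∫⁻ y, (K ∩ U).indicator (fun p => ‖D p.1 p.2‖ₑ) (v, y)) ∂(PP μ) := by
        rw [lintegral_const_mul]
        exact hI.lintegral_prod_right'
    _ = B * ∫⁻ y, ∫⁻ v, (K ∩ U).indicator (fun p => ‖D p.1 p.2‖ₑ) (v, y) ∂(PP μ) := by
        congr 1
        exact lintegral_lintegral_swap (f := fun v y =>
          (K ∩ U).indicator (fun p : (β → Fin t → ℝ) × ℝ => ‖D p.1 p.2‖ₑ) (v, y)) hI.aemeasurable

end Pool.Agent.T9h67.TA
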